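import Pool.Agent.Helper17.UL.PhiSDef

set_option autoImplicit false

/-!
Uniform version (U6): the scheme `PhiS` is ok and computes `Phi`.
-/

namespace Pool.Agent.Helper17.UL

open Pool.Agent.Helper17.SL

variable {c : ℕ}

theorem encI_lt {I : Type} [Fintype I] {B : ℕ} (a : I → ℕ) (ha : ∀ i, a i < B) :
    encI B a < B ^ Fintype.card I := by
  have h : encI B a = (finFunctionFinEquiv (fun k : Fin (Fintype.card I) =>
      (⟨a ((Fintype.equivFin I).symm k), ha _⟩ : Fin B)) : Fin (B ^ Fintype.card I)) := by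
    rw [finFunctionFinEquiv_apply]
    unfold encI pos
    exact Fintype.sum_equiv (Fintype.equivFin I) _ _ (fun i => by simp)
  rw [h]
  exact Fin.is_lt _

theorem decI_encI {I : Type} [Fintype I] {B : ℕ} (a : I → ℕ) (ha : ∀ i, a i < B) :
    decI B (encI B a) = a := by
  funext i
  have h : encI B a = (finFunctionFinEquiv (fun k : Fin (Fintype.card I) =>
      (⟨a ((Fintype.equivFin I).symm k), ha _⟩ : Fin B)) : Fin (B ^ Fintype.card I)) := by
    rw [finFunctionFinEquiv_apply]
    unfold encI pos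
    exact Fintype.sum_equiv (Fintype.equivFin I) _ _ (fun i => by simp)
  unfold decI pos
  rw [h]
  have h2 := finFunctionFinEquiv_symm_apply_val (m := B) (n := Fintype.card I)
    (finFunctionFinEquiv (fun k : Fin (Fintype.card I) =>
      (⟨a ((Fintype.equivFin I).symm k), ha _⟩ : Fin B))) (Fintype.equivFin I i)
  rw [Equiv.symm_apply_apply] at h2
  rw [← h2]
  simp

/-! ### the scheme is ok -/

theorem dep_mk0 (p : Prm) (d i l s : ℕ) (g x : Fin (c + 2) → ℕ) :
    PhiDep p (mkN 0 d i l s g x) = 0 := rfl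

theorem dep_mk1 (p : Prm) (d i l s : ℕ) (g x : Fin (c + 2) → ℕ) :
    PhiDep p (mkN 1 d i l s g x) = d * p.Del := rfl

theorem dep_mk2 (p : Prm) (d i l s : ℕ) (g x : Fin (c + 2) → ℕ) :
    PhiDep p (mkN 2 d i l s g x) = 5 * i + p.t2 + 3 + d * p.Del := rfl

theorem dep_mk3 (p : Prm) (d i l s : ℕ) (g x : Fin (c + 2) → ℕ) :
    PhiDep p (mkN 3 d i l s g x) = 5 * i + p.t2 + 7 + d * p.Del := rfl

theorem dep_mk4 (p : Prm) (d i l s : ℕ) (g x : Fin (c + 2) → ℕ) :
    PhiDep p (mkN 4 d i l s g x) = 5 * i + p.t2 + 6 + d * p.Del := rfl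

theorem dep1 (p : Prm) (a : NI c → ℕ) (h : a .tag = 1) : PhiDep p a = a .d * p.Del := by
  simp [PhiDep, h]

theorem dep2 (p : Prm) (a : NI c → ℕ) (h : a .tag = 2) :
    PhiDep p a = 5 * a .i + p.t2 + 3 + a .d * p.Del := by
  simp [PhiDep, h]

theorem dep3 (p : Prm) (a : NI c → ℕ) (h : a .tag = 3) :
    PhiDep p a = 5 * a .i + p.t2 + 7 + a .d * p.Del := by
  simp [PhiDep, h]

theorem dep4 (p : Prm) (a : NI c → ℕ) (h : a .tag = 4) :
    PhiDep p a = 5 * a .i + p.t2 + 6 + a .d * p.Del := by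
  simp [PhiDep, h]

theorem PhiS_ok (p : Prm) (phi0N : (Fin (c + 2) → ℕ) → (Fin (c + 2) → ℕ) → RI c → ℕ)
    {D r : ℕ} (hB : 0 < p.B) (hm : 0 < p.m) (hmr : p.m ≤ r) (hr : 2 ^ (2 * p.b) ≤ r ^ p.t2) :
    (PhiS p phi0N).Ok (PhiG p D r) (PhiDep p) p.b r := by
  have hb : 0 < 2 ^ p.b := by positivity
  have hr0 : 0 < r := lt_of_lt_of_le hm hmr
  have hbb : 2 ^ (2 * p.b) = 2 ^ p.b * 2 ^ p.b := by rw [two_mul, pow_add]
  have htag : ∀ a : NI c → ℕ, PhiG p D r a → ¬ (PhiS p phi0N).isLeaf a →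
      (a .tag = 1 ∧ a .d ≠ 0) ∨ (a .tag = 2 ∧ a .i ≠ 0) ∨ a .tag = 3 ∨ a .tag = 4 := by
    intro a ha hl
    obtain ⟨h1, _⟩ := ha
    simp only [PhiS] at hl
    omega
  constructor
  · intro a ha hl
    simp only [PhiS]
    split_ifs <;> first | exact Nat.mod_lt _ hb | exact hb
  · intro a ha hl
    have ht := htag a ha hl
    obtain ⟨h1, h2, h3, h4, h5, h6⟩ := ha
    simp only [PhiS]
    split_ifs <;> refine ⟨?_, ?_, ?_, ?_, ?_, fun j => ⟨(h6 j).1, (h6 j).2⟩⟩ <;>
      simp only [mkN] <;> omega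
  · intro a ha hl
    have ht := htag a ha hl
    obtain ⟨h1, h2, h3, h4, h5, h6⟩ := ha
    simp only [PhiS]
    split_ifs
    · refine ⟨?_, ?_, ?_, ?_, ?_, fun j => ⟨(h6 j).1, (h6 j).2⟩⟩ <;>
      simp only [mkN] <;> omega
    · refine ⟨?_, ?_, ?_, ?_, ?_, fun j => ⟨hB, hB⟩⟩ <;> simp only [mkN] <;> omega
  · intro a ha hl s hs
    have ht := htag a ha hl
    obtain ⟨h1, h2, h3, h4, h5, h6⟩ := ha
    simp only [PhiS] at hs ⊢
    split_ifs with g1 g2 g3 g4
    · refine ⟨?_, ?_, ?_, ?_, Nat.mod_lt _ hb, fun j => ⟨hB, hB⟩⟩ <;> simp only [mkN] <;> omega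
    · refine ⟨?_, ?_, ?_, ?_, Nat.mod_lt _ hb, fun j => ⟨hB, hB⟩⟩ <;> simp only [mkN] <;> omega
    · refine ⟨?_, ?_, ?_, ?_, ?_, fun j => ⟨hB, hB⟩⟩ <;> simp only [mkN] <;> omega
    · refine ⟨?_, ?_, ?_, ?_, ?_, fun j => ⟨Nat.mod_lt _ hB, Nat.mod_lt _ hB⟩⟩ <;>
        simp only [mkN] <;> omega
    · have g5 : a .tag = 4 := by omega
      rw [if_pos g5, pow_one] at hs
      refine ⟨?_, ?_, ?_, hs, ?_, fun j => ⟨(h6 j).1, (h6 j).2⟩⟩ <;>
        simp only [mkN] <;> omega
  · intro a ha hl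
    have ht := htag a ha hl
    have e : ∀ x : ℕ, x ≠ 0 → x * p.Del = (x - 1) * p.Del + p.Del := by
      intro x hx
      obtain ⟨y, rfl⟩ := Nat.exists_eq_succ_of_ne_zero hx
      simp [Nat.succ_mul]
    simp only [PhiS]
    rcases ht with ⟨g1, g2⟩ | ⟨g1, g2⟩ | g1 | g1
    · rw [dep1 p a g1, if_pos g1, dep_mk2, e _ g2]
      simp only [Prm.Del]
      omega
    · rw [dep2 p a g1, if_neg (by omega), if_pos g1, dep_mk2]
      omega
    · rw [dep3 p a g1, if_neg (by omega), if_neg (by omega), if_pos g1, dep_mk4]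
      omega
    · rw [dep4 p a g1, if_neg (by omega), if_neg (by omega), if_neg (by omega), dep_mk2]
      omega
  · intro a ha hl
    have ht := htag a ha hl
    simp only [PhiS]
    rcases ht with ⟨g1, g2⟩ | ⟨g1, g2⟩ | g1 | g1
    · have : 1 ≤ a .d * p.Del := Nat.mul_pos (Nat.pos_of_ne_zero g2) (by unfold Prm.Del; omega)
      rw [dep1 p a g1, if_neg (by omega), dep_mk0]
      omega
    · rw [dep2 p a g1, if_pos g1, dep_mk3]
      omega
    · rw [dep3 p a g1, if_neg (by omega), dep_mk0]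
      omega
    · rw [dep4 p a g1, if_neg (by omega), dep_mk0]
      omega
  · intro a ha hl s hs
    have ht := htag a ha hl
    simp only [PhiS]
    rcases ht with ⟨g1, g2⟩ | ⟨g1, g2⟩ | g1 | g1
    · have h7 : p.Del ≤ a .d * p.Del := Nat.le_mul_of_pos_left _ (Nat.pos_of_ne_zero g2)
      rw [dep1 p a g1, if_pos g1, if_neg (by omega), dep_mk0]
      unfold Prm.Del at h7 ⊢
      omega
    · rw [dep2 p a g1, if_neg (by omega), if_pos g1, if_neg (by omega), dep_mk0]
      omega
    · have g4 : ¬ a .tag = 4 := by omega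
      rw [dep3 p a g1, if_neg (by omega), if_neg (by omega), if_pos g1, if_neg g4]
      split_ifs
      · rw [dep_mk0]
        omega
      · rw [dep_mk1]
        omega
    · rw [dep4 p a g1, if_neg (by omega), if_neg (by omega), if_neg (by omega), if_pos g1,
        dep_mk2]
      omega
  · intro a ha hl u₁ hu₁ u₂ hu₂
    have ht := htag a ha hl
    have h9 : u₁ < r ^ p.t2 := by
      have : u₁ < 2 ^ p.b * 2 ^ p.b := by nlinarith
      omega
    simp only [PhiS]
    split_ifs with g1 g2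
    · omega
    · have : u₁ + 2 ^ p.b * u₂ < 2 ^ p.b * 2 ^ p.b := by nlinarith
      omega
    · rw [pow_one]
      omega
    · exact h9

/-! ### numeric form of one step -/

theorem nComb_cCell {V : Type} (cV : V → Fin (c + 2) → ℕ) (tm ht : V → ℕ)
    (h0 : ∀ v, cV v 0 = tm v) (h1 : ∀ v, cV v 1 = ht v) (P : ℕ) (g x : V) (m l : ℕ)
    (a : Cell V m) (r : Res V) :
    nComb P (cV g) (cV x) m l (cCell cV a) (cRes cV r) =
      cCell cV (cellComb tm ht P g x m l a r) := by
  obtain ⟨⟨ph, cur, best, fin⟩, len, en⟩ := a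
  funext q
  cases fin with
  | popped y =>
    have e : cellComb tm ht P g x m l ((⟨ph, cur, best, Res.popped y⟩, len, en) : Cell V m) r =
        (⟨ph, cur, best, Res.popped y⟩, len, en) := by
      simp [cellComb, comb]
    rw [e]
    unfold nComb
    rw [if_pos (by simp [cCell, cRes, nPopped])]
  | done y u =>
    have e : cellComb tm ht P g x m l ((⟨ph, cur, best, Res.done y u⟩, len, en) : Cell V m) r =
        (⟨ph, cur, best, Res.done y u⟩, len, en) := by
      simp [cellComb, comb]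
    rw [e]
    unfold nComb
    rw [if_pos (by simp [cCell, cRes])]
  | none =>
    by_cases hA : ph = false ∧ blk P (tm g) ≤ tm cur
    · have hA' : cCell cV ((⟨ph, cur, best, Res.none⟩, len, en) : Cell V m) (CI.ph) = 0 ∧
          blk P (cV g 0) ≤ cCell cV ((⟨ph, cur, best, Res.none⟩, len, en) : Cell V m)
            (CI.cur 0) := by
        simp only [cCell, h0]
        exact ⟨by simp [hA.1], hA.2⟩
      have e : cellComb tm ht P g x m l ((⟨ph, cur, best, Res.none⟩, len, en) : Cell V m) r =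
          (⟨true, x, best, Res.none⟩, len, en) := by
        simp [cellComb, comb, hA]
      rw [e]
      unfold nComb
      rw [if_neg (by simp [cCell, cRes]), if_pos hA']
      cases q <;> rfl
    · have hA' : ¬ (cCell cV ((⟨ph, cur, best, Res.none⟩, len, en) : Cell V m) (CI.ph) = 0 ∧
          blk P (cV g 0) ≤ cCell cV ((⟨ph, cur, best, Res.none⟩, len, en) : Cell V m)
            (CI.cur 0)) := by
        simp only [cCell, h0]
        intro h
        apply hA
        refine ⟨?_, h.2⟩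
        cases ph
        · rfl
        · simp at h
      by_cases hB : ph = true ∧ blk P (tm x) ≤ tm cur
      · have hB' : cCell cV ((⟨ph, cur, best, Res.none⟩, len, en) : Cell V m) (CI.ph) = 1 ∧
            blk P (cV x 0) ≤ cCell cV ((⟨ph, cur, best, Res.none⟩, len, en) : Cell V m)
              (CI.cur 0) := by
          simp only [cCell, h0]
          exact ⟨by simp [hB.1], hB.2⟩
        have e : cellComb tm ht P g x m l ((⟨ph, cur, best, Res.none⟩, len, en) : Cell V m) r =
            (⟨ph, cur, best, Res.done cur (best.getD cur)⟩, len, en) := by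
          simp [cellComb, comb, hB]
        rw [e]
        unfold nComb
        rw [if_neg (by simp [cCell, cRes]), if_neg hA', if_pos hB']
        cases q <;> try rfl
        cases best <;> simp [cCell, cRes]
      · have hB' : ¬ (cCell cV ((⟨ph, cur, best, Res.none⟩, len, en) : Cell V m) (CI.ph) = 1 ∧
            blk P (cV x 0) ≤ cCell cV ((⟨ph, cur, best, Res.none⟩, len, en) : Cell V m)
              (CI.cur 0)) := by
          simp only [cCell, h0]
          intro h
          apply hB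
          refine ⟨?_, h.2⟩
          cases ph
          · simp at h
          · rfl
        unfold nComb
        rw [if_neg (by simp [cCell, cRes]), if_neg hA', if_neg hB']
        cases r with
        | none =>
          have e : cellComb tm ht P g x m l ((⟨ph, cur, best, Res.none⟩, len, en) : Cell V m)
              Res.none = (⟨ph, cur, best, Res.popped cur⟩, len, en) := by
            simp [cellComb, comb, hA, hB]
          rw [e, if_pos (by simp [cRes])]
          cases q <;> rfl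
        | popped y =>
          have e : cellComb tm ht P g x m l ((⟨ph, cur, best, Res.none⟩, len, en) : Cell V m)
              (Res.popped y) = (⟨ph, y, best, Res.none⟩, ⟨(len : ℕ) - 1, by omega⟩,
                if l + 1 = (len : ℕ) then .none else en) := by
            simp [cellComb, comb, hA, hB]
          rw [e, if_neg (by simp [cRes, nPopped]), if_pos (by simp [cRes, nPopped])]
          cases q <;> try rfl
          · simp only [cCell]
            by_cases hl : l + 1 = (len : ℕ) <;> simp [hl]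
          · simp only [cCell]
            by_cases hl : l + 1 = (len : ℕ) <;> simp [hl]
        | done z u =>
          have e : cellComb tm ht P g x m l ((⟨ph, cur, best, Res.none⟩, len, en) : Cell V m)
              (Res.done z u) = (⟨ph, z, if ph then better ht best u else .none, Res.none⟩,
                ⟨min ((len : ℕ) + 1) m, by omega⟩,
                if l = (len : ℕ) then .some u else en) := by
            simp [cellComb, comb, hA, hB]
          rw [e, if_neg (by simp [cRes]), if_neg (by simp [cRes])]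
          cases q <;> try rfl
          · cases ph <;> cases best <;> simp [cCell, better]
            split_ifs <;> simp
          · cases ph <;> cases best <;> simp [cCell, better, cRes, h1]
            split_ifs <;> simp
          · simp only [cCell]
            by_cases hl : l = (len : ℕ) <;> simp [hl]
          · simp only [cCell, cRes]
            by_cases hl : l = (len : ℕ) <;> simp [hl]

/-! ### the value of the scheme -/

theorem card_RI_le : Fintype.card (RI c) ≤ Fintype.card (CI c) := by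
  refine Fintype.card_le_of_injective (fun r : RI c => match r with
    | .tag => CI.ft
    | .x i => CI.fx i
    | .u i => CI.fu i) ?_
  intro a b h
  cases a <;> cases b <;> simp_all

theorem cRes_lt {V : Type} (cV : V → Fin (c + 2) → ℕ) {B : ℕ} (hB : ∀ v i, cV v i < B)
    (hB2 : 2 < B) (r : Res V) (q : RI c) : cRes cV r q < B := by
  have h0 : 0 < B := by omega
  have h1 : 1 < B := by omega
  cases r with
  | none => simpa [cRes] using h0
  | popped x => cases q <;> simp [cRes, nPopped, hB, h0, h1]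
  | done z u => cases q <;> simp [cRes, hB, hB2]

theorem cCell_lt {V : Type} (cV : V → Fin (c + 2) → ℕ) {B m : ℕ} (hB : ∀ v i, cV v i < B)
    (hB2 : 2 < B) (hmB : m < B) (a : Cell V m) (q : CI c) : cCell cV a q < B := by
  have h0 : 0 < B := by omega
  have h1 : 1 < B := by omega
  cases q with
  | ph => simp only [cCell]; split_ifs <;> assumption
  | cur i => exact hB _ _
  | bt => simp only [cCell]; split_ifs <;> assumption
  | best i =>
    simp only [cCell]
    cases a.1.best with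
    | none => exact h0
    | some v => exact hB v i
  | ft => exact cRes_lt cV hB hB2 _ _
  | fx i => exact cRes_lt cV hB hB2 _ _
  | fu i => exact cRes_lt cV hB hB2 _ _
  | len =>
    simp only [cCell]
    have := a.2.1.is_lt
    omega
  | et => simp only [cCell]; split_ifs <;> assumption
  | en i =>
    simp only [cCell]
    cases a.2.2 with
    | none => exact h0
    | some v => exact hB v i

theorem nInit_eq {V : Type} (cV : V → Fin (c + 2) → ℕ) (tm : V → ℕ)
    (h0 : ∀ v, cV v 0 = tm v) (g x : V) {m : ℕ} (hm : 1 ≤ m) (l : ℕ) :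
    nInit (cV g) (cV x) l = cCell cV (cellOf m l (minit tm g x, [g])) := by
  have e : ∀ q' : MS V, cellOf m l (q', [g]) = (q', ⟨1, by omega⟩, if l = 0 then some g else none) := by
    intro q'
    unfold cellOf
    refine Prod.ext rfl (Prod.ext ?_ ?_)
    · simp [hm]
    · by_cases hl : l = 0
      · simp [hl]
      · simp only [hl, if_false]
        rw [List.getElem?_eq_none]
        simp
        omega
  rw [e]
  funext q
  unfold minit
  by_cases h : tm g = tm x
  · by_cases hl : l = 0 <;> cases q <;> simp [nInit, cCell, h0, h, cRes, hl]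
  · by_cases hl : l = 0 <;> cases q <;> simp [nInit, cCell, h0, h, cRes, hl]

section value

variable (p : Prm) (phi0N : (Fin (c + 2) → ℕ) → (Fin (c + 2) → ℕ) → RI c → ℕ)

theorem val_leaf (n : ℕ) (a : NI c → ℕ) (h : (PhiS p phi0N).isLeaf a) :
    (PhiS p phi0N).val n a = (PhiS p phi0N).leafVal a := by
  cases n with
  | zero => rfl
  | succ n => simp only [Scheme.val, if_pos h]

theorem val_step (n : ℕ) (a : NI c → ℕ) (h : ¬ (PhiS p phi0N).isLeaf a) :
    (PhiS p phi0N).val (n + 1) a = (PhiS p phi0N).val n ((PhiS p phi0N).kap a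
      ((PhiS p phi0N).sel a ((PhiS p phi0N).val n ((PhiS p phi0N).c1 a))
        ((PhiS p phi0N).val n ((PhiS p phi0N).c2 a)))) := by
  simp only [Scheme.val, if_neg h]

theorem val_const (n s : ℕ) (hs : s < 2 ^ p.b) :
    (PhiS p phi0N).val n (mkN 0 0 0 0 s 0 0) = s := by
  rw [val_leaf p phi0N n _ (Or.inl rfl)]
  simp only [PhiS, mkN, if_true]
  exact Nat.mod_eq_of_lt hs

theorem nl2 (d i l s : ℕ) (g x : Fin (c + 2) → ℕ) :
    ¬ (PhiS p phi0N).isLeaf (mkN 2 d (i + 1) l s g x) := by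
  simp [PhiS, mkN]

theorem nl3 (d i l s : ℕ) (g x : Fin (c + 2) → ℕ) :
    ¬ (PhiS p phi0N).isLeaf (mkN 3 d i l s g x) := by
  simp [PhiS, mkN]

theorem nl4 (d i l s : ℕ) (g x : Fin (c + 2) → ℕ) :
    ¬ (PhiS p phi0N).isLeaf (mkN 4 d i l s g x) := by
  simp [PhiS, mkN]

/-- unfolding of the cells -/
theorem step2 (n d i l : ℕ) (g x : Fin (c + 2) → ℕ) {u₁ u₂ : ℕ}
    (h1 : (PhiS p phi0N).val n (mkN 2 d i l 0 g x) = u₁)
    (h2 : (PhiS p phi0N).val n (mkN 3 d i 0 0 g x) = u₂) (hu₁ : u₁ < 2 ^ p.b)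
    (hu₂ : u₂ < 2 ^ p.b) :
    (PhiS p phi0N).val (n + 1) (mkN 2 d (i + 1) l 0 g x) =
      encI p.B (nComb (p.M ^ (d + 1)) g x p.m l (decI p.B u₁) (decI p.B u₂)) % 2 ^ p.b := by
  rw [val_step p phi0N n _ (nl2 p phi0N d i l 0 g x)]
  have e1 : (PhiS p phi0N).c1 (mkN 2 d (i + 1) l 0 g x) = mkN 2 d i l 0 g x := rfl
  have e2 : (PhiS p phi0N).c2 (mkN 2 d (i + 1) l 0 g x) = mkN 3 d i 0 0 g x := rfl
  have e3 : (PhiS p phi0N).sel (mkN 2 d (i + 1) l 0 g x) u₁ u₂ = u₁ + 2 ^ p.b * u₂ := rfl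
  have e4 : ∀ s, (PhiS p phi0N).kap (mkN 2 d (i + 1) l 0 g x) s =
      mkN 0 0 0 0 (encI p.B (nComb (p.M ^ (d + 1)) g x p.m l (decI p.B (s % 2 ^ p.b))
        (decI p.B (s / 2 ^ p.b % 2 ^ p.b))) % 2 ^ p.b) 0 0 := fun s => rfl
  have hb : 0 < 2 ^ p.b := by positivity
  rw [e1, e2, h1, h2, e3, e4, val_const p phi0N _ _ (Nat.mod_lt _ hb)]
  rw [Nat.add_mul_mod_self_left, Nat.mod_eq_of_lt hu₁, Nat.add_mul_div_left _ _ hb,
    Nat.div_eq_of_lt hu₁, zero_add, Nat.mod_eq_of_lt hu₂]

/-- unfolding of the call -/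
theorem step3 (n d i : ℕ) (g x : Fin (c + 2) → ℕ) {u : ℕ}
    (h1 : (PhiS p phi0N).val n (mkN 4 d i 0 0 g x) = u) :
    (PhiS p phi0N).val (n + 1) (mkN 3 d i 0 0 g x) =
      if decI p.B u (CI.et : CI c) = 0 then 0
      else (PhiS p phi0N).val n (mkN 1 d 0 0 0 (fun j => decI p.B u (CI.en j : CI c))
        (fun j => decI p.B u (CI.cur j : CI c))) := by
  rw [val_step p phi0N n _ (nl3 p phi0N d i 0 0 g x)]
  have e1 : (PhiS p phi0N).c1 (mkN 3 d i 0 0 g x) = mkN 4 d i 0 0 g x := rfl
  have e3 : ∀ u₂, (PhiS p phi0N).sel (mkN 3 d i 0 0 g x) u u₂ = u := fun u₂ => rfl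
  have e4 : ∀ s, (PhiS p phi0N).kap (mkN 3 d i 0 0 g x) s =
      if decI p.B s (CI.et : CI c) = 0 then mkN 0 0 0 0 0 0 0
      else mkN 1 d 0 0 0 (fun j => decI p.B s (CI.en j : CI c))
        (fun j => decI p.B s (CI.cur j : CI c)) := fun s => rfl
  rw [e1, h1, e3, e4]
  split_ifs
  · exact val_const p phi0N _ _ (by positivity)
  · rfl

/-- unfolding of the top cell -/
theorem step4 (n d i : ℕ) (g x : Fin (c + 2) → ℕ) {u : ℕ}
    (h1 : (PhiS p phi0N).val n (mkN 2 d i 0 0 g x) = u) :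
    (PhiS p phi0N).val (n + 1) (mkN 4 d i 0 0 g x) =
      (PhiS p phi0N).val n (mkN 2 d i (min (decI p.B u (CI.len : CI c) - 1) (p.m - 1)) 0 g x) := by
  rw [val_step p phi0N n _ (nl4 p phi0N d i 0 0 g x)]
  have e1 : (PhiS p phi0N).c1 (mkN 4 d i 0 0 g x) = mkN 2 d i 0 0 g x := rfl
  have e3 : ∀ u₂, (PhiS p phi0N).sel (mkN 4 d i 0 0 g x) u u₂ =
    min (decI p.B u (CI.len : CI c) - 1) (p.m - 1) := fun u₂ => rfl
  have e4 : ∀ s, (PhiS p phi0N).kap (mkN 4 d i 0 0 g x) s = mkN 2 d i s 0 g x := fun s => rfl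
  rw [e1, h1, e3, e4]

/-- unfolding of `Phi` -/
theorem step1 (n d : ℕ) (g x : Fin (c + 2) → ℕ) {u : ℕ} (hgx : ¬ x 1 < g 1)
    (h1 : (PhiS p phi0N).val n (mkN 2 d (4 * p.M + 4) 0 0 g x) = u) :
    (PhiS p phi0N).val (n + 1) (mkN 1 (d + 1) 0 0 0 g x) =
      encI p.B (fun r : RI c => match r with
        | .tag => decI p.B u (CI.ft : CI c)
        | .x i => decI p.B u (CI.fx i)
        | .u i => decI p.B u (CI.fu i)) % 2 ^ p.b := by
  have hl : ¬ (PhiS p phi0N).isLeaf (mkN 1 (d + 1) 0 0 0 g x) := by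
    simp only [PhiS, mkN]
    omega
  rw [val_step p phi0N n _ hl]
  have e1 : (PhiS p phi0N).c1 (mkN 1 (d + 1) 0 0 0 g x) = mkN 2 d (4 * p.M + 4) 0 0 g x := rfl
  have e3 : ∀ u₂, (PhiS p phi0N).sel (mkN 1 (d + 1) 0 0 0 g x) u u₂ = u := fun u₂ => rfl
  have e4 : ∀ s, (PhiS p phi0N).kap (mkN 1 (d + 1) 0 0 0 g x) s =
      mkN 0 0 0 0 (encI p.B (fun r : RI c => match r with
        | .tag => decI p.B s (CI.ft : CI c)
        | .x i => decI p.B s (CI.fx i)
        | .u i => decI p.B s (CI.fu i)) % 2 ^ p.b) 0 0 := fun s => rfl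
  rw [e1, h1, e3, e4, val_const p phi0N _ _ (Nat.mod_lt _ (by positivity))]

end value

/-- the cells -/
theorem cells_val {V : Type} (cV : V → Fin (c + 2) → ℕ) (tm ht : V → ℕ)
    (h0 : ∀ v, cV v 0 = tm v) (h1 : ∀ v, cV v 1 = ht v) (p : Prm)
    (phi0N : (Fin (c + 2) → ℕ) → (Fin (c + 2) → ℕ) → RI c → ℕ)
    (hB : ∀ v i, cV v i < p.B) (hB2 : 2 < p.B) (hmB : p.m < p.B) (hm : p.m = 4 * p.M + 6)
    (hb : 2 ^ p.b = p.B ^ Fintype.card (CI c)) (Φ : V → V → Res V) (d : ℕ)
    (IH : ∀ n, d * p.Del ≤ n → ∀ g x, (PhiS p phi0N).val n (mkN 1 d 0 0 0 (cV g) (cV x)) =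
      encI p.B (cRes cV (Φ g x))) (g x : V) (i : ℕ) (hi : i ≤ 4 * p.M + 4) :
    ∀ n, 5 * i + p.t2 + 3 + d * p.Del ≤ n → ∀ l,
      (PhiS p phi0N).val n (mkN 2 d i l 0 (cV g) (cV x)) =
        encI p.B (cCell cV (cellOf p.m l ((mstep tm ht (p.M ^ (d + 1)) g x Φ)^[i]
          (minit tm g x, [g])))) := by
  have hcc : ∀ {m : ℕ} (a : Cell V m), m < p.B → encI p.B (cCell cV a) < 2 ^ p.b := by
    intro m a h
    rw [hb]
    exact encI_lt _ (cCell_lt cV hB hB2 h a)
  have hcr : ∀ r : Res V, encI p.B (cRes cV r) < 2 ^ p.b := by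
    intro r
    rw [hb]
    exact (encI_lt _ (cRes_lt cV hB hB2 r)).trans_le
      (Nat.pow_le_pow_right (by omega) card_RI_le)
  induction i with
  | zero =>
    intro n hn l
    have hl : (PhiS p phi0N).isLeaf (mkN 2 d 0 l 0 (cV g) (cV x)) := by
      right; right; left; exact ⟨rfl, rfl⟩
    rw [val_leaf p phi0N n _ hl]
    have e : (PhiS p phi0N).leafVal (mkN 2 d 0 l 0 (cV g) (cV x)) =
        encI p.B (nInit (cV g) (cV x) l) % 2 ^ p.b := rfl
    rw [e, nInit_eq cV tm h0 g x (m := p.m) (by omega) l, Function.iterate_zero, id_eq]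
    exact Nat.mod_eq_of_lt (hcc _ hmB)
  | succ i ih =>
    intro n hn l
    have ih' := ih (by omega)
    set ci := (mstep tm ht (p.M ^ (d + 1)) g x Φ)^[i] (minit tm g x, [g]) with hci
    have hlen : ci.2.length < p.m := by
      have := iter_length tm ht (p.M ^ (d + 1)) g x Φ (minit tm g x, [g]) i
      rw [← hci] at this
      simp only [List.length_cons, List.length_nil] at this
      omega
    obtain ⟨n1, rfl⟩ : ∃ n1, n = n1 + 3 := ⟨n - 3, by omega⟩
    -- the top cell
    have hT : (PhiS p phi0N).val (n1 + 1) (mkN 4 d i 0 0 (cV g) (cV x)) =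
        encI p.B (cCell cV (cellOf p.m (topIdx (cellOf p.m 0 ci)) ci)) := by
      rw [step4 p phi0N n1 d i (cV g) (cV x) (ih' n1 (by omega) 0),
        decI_encI _ (cCell_lt cV hB hB2 hmB _)]
      have : min (cCell cV (cellOf p.m 0 ci) (CI.len : CI c) - 1) (p.m - 1) =
          topIdx (cellOf p.m 0 ci) := by
        simp only [cCell, topIdx]
        have := (cellOf p.m 0 ci).2.1.is_lt
        omega
      rw [this]
      exact ih' n1 (by omega) _
    -- the answer to the call
    have hR : (PhiS p phi0N).val (n1 + 2) (mkN 3 d i 0 0 (cV g) (cV x)) =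
        encI p.B (cRes cV (call Φ ci.2.head? ci.1.cur)) := by
      rw [step3 p phi0N (n1 + 1) d i (cV g) (cV x) hT, decI_encI _ (cCell_lt cV hB hB2 hmB _)]
      have htop := cell_top (m := p.m) ci hlen.le 0
      rw [← htop]
      have hcur : (cellOf p.m (topIdx (cellOf p.m 0 ci)) ci).1 = ci.1 := rfl
      cases hen : (cellOf p.m (topIdx (cellOf p.m 0 ci)) ci).2.2 with
      | none =>
        rw [if_pos (by simp [cCell, hen])]
        simp [call, cRes, encI]
      | some tp =>
        rw [if_neg (by simp [cCell, hen])]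
        have e1 : (fun j => cCell cV (cellOf p.m (topIdx (cellOf p.m 0 ci)) ci) (CI.en j : CI c))
            = cV tp := by
          funext j
          simp only [cCell, hen]
        have e2 : (fun j => cCell cV (cellOf p.m (topIdx (cellOf p.m 0 ci)) ci)
            (CI.cur j : CI c)) = cV ci.1.cur := by
          funext j
          simp only [cCell, hcur]
        rw [e1, e2, IH (n1 + 1) (by omega)]
        rfl
    rw [step2 p phi0N (n1 + 2) d i l (cV g) (cV x) (ih' (n1 + 2) (by omega) l) hR (hcc _ hmB)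
      (hcr _), decI_encI _ (cCell_lt cV hB hB2 hmB _), decI_encI _ (cRes_lt cV hB hB2 _),
      nComb_cCell cV tm ht h0 h1, Function.iterate_succ_apply', ← hci,
      cell_step tm ht _ g x Φ l ci hlen]
    exact Nat.mod_eq_of_lt (hcc _ hmB)

/-- the value of `PhiS` -/
theorem PhiS_val {V : Type} (cV : V → Fin (c + 2) → ℕ) (tm ht : V → ℕ)
    (h0 : ∀ v, cV v 0 = tm v) (h1 : ∀ v, cV v 1 = ht v) (p : Prm)
    (phi0N : (Fin (c + 2) → ℕ) → (Fin (c + 2) → ℕ) → RI c → ℕ) {D r : ℕ}
    (hB : ∀ v i, cV v i < p.B) (hB2 : 2 < p.B) (hmB : p.m < p.B) (hm : p.m = 4 * p.M + 6)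
    (hb : 2 ^ p.b = p.B ^ Fintype.card (CI c)) (hmr : p.m ≤ r)
    (hr : 2 ^ (2 * p.b) ≤ r ^ p.t2) (Φ₀ : V → V → Res V)
    (hphi : ∀ g x, ¬ ht x < ht g → phi0N (cV g) (cV x) = cRes cV (Φ₀ g x))
    (d : ℕ) (hd : d ≤ D) (n : ℕ) (hn : d * p.Del ≤ n) (g x : V) :
    (PhiS p phi0N).val n (mkN 1 d 0 0 0 (cV g) (cV x)) =
      encI p.B (cRes cV (Phi tm ht p.M Φ₀ d g x)) := by
  have hcr : ∀ r : Res V, encI p.B (cRes cV r) < 2 ^ p.b := by
    intro r
    rw [hb]
    exact (encI_lt _ (cRes_lt cV hB hB2 r)).trans_le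
      (Nat.pow_le_pow_right (by omega) card_RI_le)
  -- the leaves
  have hleaf : ∀ (d n : ℕ) (g x : V), (d = 0 ∨ ht x < ht g) →
      (PhiS p phi0N).val n (mkN 1 d 0 0 0 (cV g) (cV x)) =
        encI p.B (cRes cV (if ht x < ht g then .popped x else Φ₀ g x)) := by
    intro d n g x hdx
    have hl : (PhiS p phi0N).isLeaf (mkN 1 d 0 0 0 (cV g) (cV x)) := by
      right; left
      refine ⟨rfl, ?_⟩
      simp only [mkN, h1]
      exact hdx
    rw [val_leaf p phi0N n _ hl]
    have e : (PhiS p phi0N).leafVal (mkN 1 d 0 0 0 (cV g) (cV x)) =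
        (if cV x 1 < cV g 1 then encI p.B (nPopped (cV x) : RI c → ℕ)
          else encI p.B (phi0N (cV g) (cV x))) % 2 ^ p.b := rfl
    rw [e, h1, h1]
    by_cases hgx : ht x < ht g
    · rw [if_pos hgx, if_pos hgx]
      exact Nat.mod_eq_of_lt (hcr (.popped x))
    · rw [if_neg hgx, if_neg hgx, hphi g x hgx]
      exact Nat.mod_eq_of_lt (hcr _)
  have main : ∀ d n : ℕ, d * p.Del ≤ n → ∀ g x : V,
      (PhiS p phi0N).val n (mkN 1 d 0 0 0 (cV g) (cV x)) =
        encI p.B (cRes cV (Phi tm ht p.M Φ₀ d g x)) := by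
    intro d
    induction d with
    | zero =>
      intro n _ g x
      rw [hleaf 0 n g x (Or.inl rfl)]
      rfl
    | succ d ih =>
      intro n hn g x
      by_cases hgx : ht x < ht g
      · rw [hleaf (d + 1) n g x (Or.inr hgx)]
        simp only [Phi, if_pos hgx]
      · have hDel : (d + 1) * p.Del = d * p.Del + (20 * p.M + 24 + p.t2) := by
          rw [Nat.succ_mul]
          rfl
        obtain ⟨n1, rfl⟩ : ∃ n1, n = n1 + 1 := ⟨n - 1, by omega⟩
        have hc := cells_val cV tm ht h0 h1 p phi0N hB hB2 hmB hm hb (Phi tm ht p.M Φ₀ d) d ih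
          g x (4 * p.M + 4) le_rfl n1 (by omega) 0
        rw [step1 p phi0N n1 d (cV g) (cV x) (by rw [h1, h1]; exact hgx) hc,
          decI_encI _ (cCell_lt cV hB hB2 hmB _)]
        simp only [Phi, if_neg hgx]
        have e : (fun r : RI c => match r with
            | .tag => cCell cV (cellOf p.m 0 ((mstep tm ht (p.M ^ (d + 1)) g x
              (Phi tm ht p.M Φ₀ d))^[4 * p.M + 4] (minit tm g x, [g]))) (CI.ft : CI c)
            | .x i => cCell cV (cellOf p.m 0 ((mstep tm ht (p.M ^ (d + 1)) g x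
              (Phi tm ht p.M Φ₀ d))^[4 * p.M + 4] (minit tm g x, [g]))) (CI.fx i)
            | .u i => cCell cV (cellOf p.m 0 ((mstep tm ht (p.M ^ (d + 1)) g x
              (Phi tm ht p.M Φ₀ d))^[4 * p.M + 4] (minit tm g x, [g]))) (CI.fu i)) =
            cRes cV (((mstep tm ht (p.M ^ (d + 1)) g x
              (Phi tm ht p.M Φ₀ d))^[4 * p.M + 4] (minit tm g x, [g])).1.fin) := by
          funext q
          cases q <;> rfl
        rw [e]
        exact Nat.mod_eq_of_lt (hcr _)
  exact main d n hn g x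

end Pool.Agent.Helper17.UL
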