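import Pool.Agent.Helper17.UL.MachN
import Pool.Agent.Helper17.UL.FLDef
import Pool.Agent.Helper68.UL.Arith

set_option autoImplicit false

/-!
U8c: the number of leading letters of the padded input is computable, and so is the table of
accepting states.
-/

namespace Pool.Agent.Helper17.UL

open Pool.Agent.Helper17.SL Pool.Agent.Helper6

variable {α Q Γ : Type} [Fintype α] [Fintype Q] [Fintype Γ] {k : ℕ}

/-- Characterisation of the length of `takeWhile`. -/
theorem takeWhile_char {β : Type} (P : β → Bool) (w : List β) (t : ℕ) :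
    t = (w.takeWhile P).length ↔
      (∀ i < t, ∃ a, w[i]? = some a ∧ P a = true) ∧ ¬ ∃ a, w[t]? = some a ∧ P a = true := by
  induction w generalizing t with
  | nil =>
    simp only [List.takeWhile_nil, List.length_nil, List.getElem?_nil]
    constructor
    · rintro rfl
      simp
    · rintro ⟨h, -⟩
      by_contra h0
      obtain ⟨a, h1, -⟩ := h 0 (by omega)
      cases h1
  | cons b l ih =>
    rcases hb : P b with _ | _
    · rw [List.takeWhile_cons_of_neg (by simp [hb])]
      constructor
      · rintro rfl
        refine ⟨by simp, ?_⟩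
        rintro ⟨a, h1, h2⟩
        simp only [List.getElem?_cons_zero, Option.some.injEq, List.length_nil] at h1
        rw [← h1, hb] at h2
        cases h2
      · rintro ⟨h, -⟩
        by_contra h0
        obtain ⟨a, h1, h2⟩ := h 0 (by simp only [List.length_nil] at h0; omega)
        simp only [List.getElem?_cons_zero, Option.some.injEq] at h1
        rw [← h1, hb] at h2
        cases h2
    · rw [List.takeWhile_cons_of_pos hb]
      rcases t with _ | t
      · constructor
        · intro h
          simp only [List.length_cons] at h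
          omega
        · rintro ⟨-, h⟩
          exact absurd ⟨b, by simp, hb⟩ h
      · have h1 := ih t
        simp only [List.length_cons, Nat.add_right_cancel_iff, List.getElem?_cons_succ]
        rw [h1]
        constructor
        · rintro ⟨h2, h3⟩
          refine ⟨?_, h3⟩
          intro i hi
          rcases i with _ | i
          · exact ⟨b, by simp, hb⟩
          · simpa using h2 i (by omega)
        · rintro ⟨h2, h3⟩
          refine ⟨?_, h3⟩
          intro i hi
          simpa using h2 (i + 1) (by omega)

/-- The symbol under the head is a letter of the input. -/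
def isLet (s : Sym (Option α)) : Prop := s.1 = false ∧ ∃ a, s.2 = some (some a)

theorem isLet_rd (w : List (Option α)) (p : ℕ) :
    isLet (rd w (p + 1)) ↔ ∃ a, w[p]? = some a ∧ a.isSome = true := by
  unfold isLet rd
  constructor
  · rintro ⟨-, a, h⟩
    exact ⟨some a, by simpa using h, rfl⟩
  · rintro ⟨a, h1, h2⟩
    obtain ⟨b, rfl⟩ := Option.isSome_iff_exists.1 h2
    exact ⟨by simp, b, by simpa using h1⟩

theorem lead_FL : FL (Option α) Empty
    (fun w _ => (w.takeWhile Option.isSome).length) := by
  have hL : ∀ w : List (Option α), (w.takeWhile Option.isSome).length ≤ w.length :=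
    fun w => (List.takeWhile_sublist _).length_le
  have h1 : IsL (Option α) (Empty ⊕ Unit) (fun w x =>
      ¬ isLet (rd w (min (x (Sum.inr ()) + 1) (w.length + 1)))) :=
    IsL.not (isL_comp (U := Unit) (R := fun w x => isLet (rd w (x ())))
      (IsL.sym () isLet) (g := fun _ w x => min (x (Sum.inr ()) + 1) (w.length + 1))
      (fun _ => FL.succ (FL.proj _)))
  have h2 : IsL (Option α) (Empty ⊕ Unit) (fun w x => ∃ p ≤ w.length + 1,
      (0 < p ∧ p ≤ x (Sum.inr ())) ∧ ¬ isLet (rd w p)) := by
    refine isL_ex1 (R := fun w z => (0 < z (Sum.inr ()) ∧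
      z (Sum.inr ()) ≤ z (Sum.inl (Sum.inr ()))) ∧ ¬ isLet (rd w (z (Sum.inr ()))))
      (IsL.and (IsL.and (isL_lt FL.zero (FL.proj _)) (isL_le (FL.proj _) (FL.proj _)))
        (IsL.not (IsL.sym _ isLet))) ?_
    intro w x _
    rfl
  refine FL.of_unique (IsL.and h1 (IsL.not h2)) (fun w x _ => by have := hL w; omega) ?_
  intro w x t _ ht
  simp only [Sum.elim_inr]
  rw [takeWhile_char]
  constructor
  · rintro ⟨h3, h4⟩
    have h5 : ∀ i < t, ∃ a, w[i]? = some a ∧ Option.isSome a = true := by
      intro i hi
      by_contra h6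
      exact h4 ⟨i + 1, by omega, ⟨by omega, by omega⟩, by rwa [isLet_rd]⟩
    refine ⟨h5, ?_⟩
    rcases Nat.lt_or_ge t (w.length + 1) with h6 | h6
    · rwa [min_eq_left (by omega), isLet_rd] at h3
    · exfalso
      obtain ⟨a, h7, -⟩ := h5 w.length (by omega)
      simp at h7
  · rintro ⟨h3, h4⟩
    have h5 : t ≤ w.length := by
      by_contra h6
      obtain ⟨a, h7, -⟩ := h3 w.length (by omega)
      simp at h7
    refine ⟨?_, ?_⟩
    · rwa [min_eq_left (by omega), isLet_rd]
    · rintro ⟨p, -, ⟨hp1, hp2⟩, hp3⟩
      obtain ⟨q, rfl⟩ : ∃ q, p = q + 1 := ⟨p - 1, by omega⟩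
      exact hp3 ((isLet_rd w q).2 (h3 q (by omega)))

theorem tabF_eq_one (F : Q → Bool) (p : ℕ) :
    tabF F p = 1 ↔ ∃ q : Q, F q = true ∧ p = fc q := by
  constructor
  · intro h
    by_cases h1 : ∃ q : Q, fc q = p
    · obtain ⟨q, rfl⟩ := h1
      refine ⟨q, ?_, rfl⟩
      unfold tabF at h
      rw [ptab_code (fun _ _ h => fc_inj h)] at h
      by_contra h2
      rw [if_neg h2] at h
      omega
    · unfold tabF ptab at h
      rw [dif_neg h1] at h
      omega
  · rintro ⟨q, h1, rfl⟩
    unfold tabF
    rw [ptab_code (fun _ _ h => fc_inj h), if_pos h1]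

theorem tabF_isL (F : Q → Bool) {V : Type} [Finite V] {f : List (Option α) → (V → ℕ) → ℕ}
    (hf : FL (Option α) V f) : IsL (Option α) V (fun w x => tabF F (f w x) = 1) := by
  refine IsL.congr (IsL.bigOr (R := fun (q : Q) w x => F q = true ∧ f w x = fc q)
    (fun q => IsL.and (IsL.const _) (isL_comp (U := Unit) (R := fun _ x => x () = fc q)
      (isL_const _ _) (g := fun _ => f) (fun _ => hf)))) ?_
  intro w x _
  rw [tabF_eq_one]

end Pool.Agent.Helper17.UL
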